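import Pool.Agent.H960R2.VB.Main2

/-!
# A splitting criterion for rank two bundles on `P^n` by the lines through one point

`E` is a rank two vector bundle on `P^n`, given as the kernel of a homogeneous matrix of constant
rank.  Let `Λ` be a linear subspace of `P^n` of dimension `m ≥ 2` (a subspace of `ℂ^{n+1}` of
dimension `m + 1 ≥ 3`) and let `P` be a point of it.  If on every line through `P` in `Λ` the
bundle `E` is `O(p) ⊕ O(q)` with `|p - q| ≤ m - 2`, then `E` splits.
-/

namespace Pool.Agent.Results.MP_b01859_ag.GapThroughPoint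

open H960VB

theorem result {n : ℕ} (E : Bundle2 n) (Λ : Submodule ℂ (Fin (n + 1) → ℂ))
    (hΛ : 3 ≤ Module.finrank ℂ Λ) (P : Fin (n + 1) → ℂ) (hPΛ : P ∈ Λ) (hP : P ≠ 0)
    (h : ∀ Q ∈ Λ, LinearIndependent ℂ ![P, Q] →
      ∃ p q : ℤ, |p - q| + 3 ≤ (Module.finrank ℂ Λ : ℤ) ∧ E.SplitsOn P Q p q) :
    E.Splits :=
  E.main_subspace Λ hΛ P hPΛ hP h

end Pool.Agent.Results.MP_b01859_ag.GapThroughPoint
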