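import Pool.Agent.H960R2.VB.Main3

/-!
# Rank two bundles on `P^n` with a section whose zero scheme has few points on the lines through
one point

`E` is a rank two vector bundle on `P^n` (the kernel of a homogeneous matrix of constant rank).
`T` parametrises a linear subspace `Λ ≅ P^k` of `P^n`, `G` is a section of `E|_Λ (m)` which does
not vanish at the point `x` of `Λ`, and `c₁(E(m)) = p + q + 2 m ≤ k - 2`, where `(p, q)` is the
splitting type of `E` on some line.  If no line of `Λ` through `x` meets the zero scheme of `G` in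
a scheme of length at least `k - 1`, then `E` splits.
-/

namespace Pool.Agent.Results.MP_b01859_ag.SecantLines

open H960VB

theorem result {n k : ℕ} (hk : 2 ≤ k) (E : Bundle2 n)
    (T : (Fin (k + 1) → ℂ) →ₗ[ℂ] (Fin (n + 1) → ℂ)) (hT : Function.Injective T) (m : ℤ)
    (G : Fin E.a → MvPolynomial (Fin (k + 1)) ℂ) (hG : (E.pull T hT).IsSection m G)
    (x : Fin (k + 1) → ℂ) (hx : x ≠ 0) (hGx : evv G x ≠ 0)
    (A B : Fin (n + 1) → ℂ) (hAB : LinearIndependent ℂ ![A, B]) (p q : ℤ)
    (hs : E.SplitsOn A B p q) (hc : p + q + 2 * m ≤ (k : ℤ) - 2)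
    (h : ∀ Q : Fin (k + 1) → ℂ, LinearIndependent ℂ ![x, Q] → ∀ d : ℕ, k ≤ d + 1 →
      ¬ Secant G x Q d) : E.Splits :=
  E.main_secant_sub hk T hT m G hG x hx hGx A B hAB p q hs hc h

end Pool.Agent.Results.MP_b01859_ag.SecantLines
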