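import Pool.Agent.H938R2.TB.Fin
import Pool.Agent.H938R2.TB.Main

/-!
# Rank two bundles on projective space with an action of a two-dimensional torus

Let the torus `T = (ℂ^*)^2` act on `P^n` by `t · x_j = t^{w_j} x_j`, `w_j ∈ ℤ²`, the points `w_j` not
on a line (so that the image of `T` in the automorphism group of `P^n` has dimension two).  If
`n ≥ 4`, every rank two vector bundle on `P^n` with a `T`-linearisation splits.
-/

set_option autoImplicit false

namespace Pool.Agent.Results.MP_b01859_ag.TwoTorus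

open H960VB

theorem result {n : ℕ} (hn : 4 ≤ n) (E : Bundle2 n) (w : Fin (n + 1) → ℤ × ℤ)
    (hw : ∃ i j k, (w j - w i).1 * (w k - w i).2 - (w j - w i).2 * (w k - w i).1 ≠ 0)
    (b : Fin E.a → ℤ × ℤ) (c : Fin E.c → ℤ × ℤ)
    (hB : ∀ k i, ∀ u ∈ (E.B k i).support, ∑ j, (u j : ℤ) • w j = c k - b i) :
    E.Splits :=
  H938TB.main hn (H938TB.mkEqB E w b c hB) hw

end Pool.Agent.Results.MP_b01859_ag.TwoTorus
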